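import Pool.Agent.H63.WS.Stm

set_option autoImplicit false

/-!
# Project WS (helper63): the combinatorics of the weights
-/

namespace Pool.Agent.H189.WS

open Finset Pool.Agent.H63.WS

variable {ι E : Type} [DecidableEq ι]

omit [DecidableEq ι] in
lemma reg_single {w : ι → E → ℕ} (hw : ∀ i e, 0 < w i e) (a : ι → ℕ) {S : Finset ι}
    (h : S.card ≤ 1) : Regular w a S := by
  intro e j l _ _ heq i hi
  have hS : S = {i} := by
    apply Finset.eq_singleton_iff_unique_mem.2
    exact ⟨hi, fun x hx => Finset.card_le_one.1 h x hx i hi⟩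
  rw [hS, Finset.sum_singleton, Finset.sum_singleton] at heq
  exact Nat.eq_of_mul_eq_mul_right (hw i e) heq

lemma reg_subset {w : ι → E → ℕ} {a : ι → ℕ} {S T : Finset ι} (hST : S ⊆ T)
    (h : Regular w a T) : Regular w a S := by
  intro e j l hj hl heq i hi
  have h1 := h e (fun x => if x ∈ S then j x else 0) (fun x => if x ∈ S then l x else 0)
    (fun x _ => by
      by_cases hx : x ∈ S
      · simp only [hx, if_true]; exact hj x hx
      · simp [hx])
    (fun x _ => by
      by_cases hx : x ∈ S
      · simp only [hx, if_true]; exact hl x hx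
      · simp [hx])
    (by
      have key : ∀ f : ι → ℕ, ∑ x ∈ T, (if x ∈ S then f x else 0) * w x e =
          ∑ x ∈ S, f x * w x e := by
        intro f
        rw [← Finset.sum_subset hST (f := fun x => (if x ∈ S then f x else 0) * w x e)]
        · exact Finset.sum_congr rfl fun x hx => by simp [hx]
        · intro x _ hx
          simp [hx]
      rw [key, key]
      exact heq) i (hST hi)
  simpa [hi] using h1

omit [DecidableEq ι] in
lemma reg_mono {w : ι → E → ℕ} {a b : ι → ℕ} {S : Finset ι} (hab : ∀ i ∈ S, a i ≤ b i)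
    (h : Regular w b S) : Regular w a S := fun e j l hj hl heq =>
  h e j l (fun i hi => (hj i hi).trans (hab i hi)) (fun i hi => (hl i hi).trans (hab i hi)) heq

/-- the arithmetic -/
lemma pair_eq {u v p q r s A : ℕ} (hu : 0 < u) (hv : 0 < v) (hA : A * Nat.gcd u v ≤ v)
    (hp : p < A) (hq : q < A) (h : p * u + r * v = q * u + s * v) : p = q ∧ r = s := by
  have hg : 0 < Nat.gcd u v := Nat.gcd_pos_of_pos_left v hu
  obtain ⟨g, u', v', hg', hco, rfl, rfl⟩ := Nat.exists_coprime' (m := u) (n := v) hg
  have hgcd : Nat.gcd (u' * g) (v' * g) = g := by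
    rw [Nat.gcd_mul_right, hco.gcd_eq_one, one_mul]
  rw [hgcd] at hA
  have hA' : A ≤ v' := Nat.le_of_mul_le_mul_right hA hg'
  have h1 : p * u' + r * v' = q * u' + s * v' := by
    apply Nat.eq_of_mul_eq_mul_right hg'
    linarith
  have h2 : ((p : ℤ) - q) * u' = ((s : ℤ) - r) * v' := by
    have : (p : ℤ) * u' + r * v' = q * u' + s * v' := by exact_mod_cast h1
    linarith
  have h3 : (v' : ℤ) ∣ ((p : ℤ) - q) := by
    have h4 : (v' : ℤ) ∣ ((p : ℤ) - q) * u' := ⟨(s : ℤ) - r, by rw [h2]; ring⟩
    have h5 : IsCoprime (v' : ℤ) (u' : ℤ) := Nat.isCoprime_iff_coprime.2 hco.symm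
    exact h5.dvd_of_dvd_mul_right h4
  have h6 : (p : ℤ) - q = 0 := by
    apply Int.eq_zero_of_abs_lt_dvd h3
    rw [abs_lt]
    have a1 : (p : ℤ) < v' := by exact_mod_cast lt_of_lt_of_le hp hA'
    have a2 : (q : ℤ) < v' := by exact_mod_cast lt_of_lt_of_le hq hA'
    have a3 : (0 : ℤ) ≤ p := Int.natCast_nonneg p
    have a4 : (0 : ℤ) ≤ q := Int.natCast_nonneg q
    constructor <;> linarith
  have h7 : p = q := by omega
  refine ⟨h7, ?_⟩
  rw [h7] at h
  exact Nat.eq_of_mul_eq_mul_right hv (by omega)

lemma reg_pair {w : ι → E → ℕ} (hw : ∀ i e, 0 < w i e) {a A : ι → ℕ} {i j : ι} (hij : i ≠ j)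
    (hi : a i < A i) (hA : ∀ e, A i * Nat.gcd (w i e) (w j e) ≤ w j e) :
    Regular w a {i, j} := by
  intro e p q hp hq heq
  rw [Finset.sum_pair hij, Finset.sum_pair hij] at heq
  have hpi := hp i (by simp)
  have hqi := hq i (by simp)
  obtain ⟨h1, h2⟩ := pair_eq (hw i e) (hw j e) (hA e) (lt_of_le_of_lt hpi hi)
    (lt_of_le_of_lt hqi hi) heq
  intro x hx
  rw [Finset.mem_insert, Finset.mem_singleton] at hx
  rcases hx with rfl | rfl
  · exact h1
  · exact h2

/-- REG -/
theorem t_reg : S_REG := by
  intro ι E _ _ w A hw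
  refine ⟨?_, ?_, ?_⟩
  · intro hcard hgcd a ha
    have hex : ∃ i, a i < A i := by
      by_contra hno
      push Not at hno
      have h1 : (univ.filter fun i => A i ≤ a i) = univ :=
        Finset.filter_true_of_mem fun i _ => hno i
      rw [h1, Finset.card_univ, hcard] at ha
      exact lt_irrefl _ ha
    obtain ⟨i, hi⟩ := hex
    obtain ⟨j, hji, hj⟩ := hgcd i
    refine ⟨{i, j}, reg_pair hw hji.symm hi hj, reg_single hw a ?_⟩
    rw [Finset.card_compl, Finset.card_pair hji.symm, hcard]
  · intro hcard hgcd a ha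
    have h1 : 1 < (univ.filter fun i => ¬ A i ≤ a i).card := by
      have h2 := Finset.card_filter_add_card_filter_not (s := (univ : Finset ι))
        (fun i => A i ≤ a i)
      rw [Finset.card_univ, hcard] at h2
      omega
    obtain ⟨x, hx, y, hy, hxy⟩ := Finset.one_lt_card.1 h1
    rw [Finset.mem_filter, not_le] at hx hy
    have h3 : (({x, y} : Finset ι)ᶜ).card = 2 := by
      rw [Finset.card_compl, Finset.card_pair hxy, hcard]
    obtain ⟨b, c, hbc, hc⟩ := Finset.card_eq_two.1 h3
    have hb' : b ∈ ({x, y} : Finset ι)ᶜ := by rw [hc]; simp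
    have hc' : c ∈ ({x, y} : Finset ι)ᶜ := by rw [hc]; simp
    rw [Finset.mem_compl, Finset.mem_insert, Finset.mem_singleton, not_or] at hb' hc'
    refine ⟨{x, b}, reg_pair hw (Ne.symm hb'.1) hx.2 (hgcd x b (Ne.symm hb'.1)), ?_⟩
    have h4 : ({x, b} : Finset ι)ᶜ = {y, c} := by
      ext z
      have h5 : z ∈ ({x, y} : Finset ι)ᶜ ↔ z ∈ ({b, c} : Finset ι) := by rw [hc]
      rw [Finset.mem_compl, Finset.mem_insert, Finset.mem_singleton, Finset.mem_insert,
        Finset.mem_singleton] at h5
      rw [Finset.mem_compl, Finset.mem_insert, Finset.mem_singleton, Finset.mem_insert,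
        Finset.mem_singleton]
      constructor
      · intro h6
        push Not at h6
        by_cases hzy : z = y
        · exact Or.inl hzy
        · right
          rcases h5.1 (fun h7 => h7.elim h6.1 hzy) with h8 | h8
          · exact absurd h8 h6.2
          · exact h8
      · rintro (rfl | rfl) h6
        · rcases h6 with h6 | h6
          · exact hxy h6.symm
          · exact hb'.2 h6.symm
        · rcases h6 with h6 | h6
          · exact hc'.1 h6
          · exact hbc h6.symm
    rw [h4]
    exact reg_pair hw (Ne.symm hc'.2) hy.2 (hgcd y c (Ne.symm hc'.2))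
  · intro R hR a ha
    have ha' : (univ.filter fun i => R + 1 ≤ a i).card < 2 := ha
    refine ⟨univ.filter fun i => R + 1 ≤ a i, reg_single hw a (by omega), ?_⟩
    refine reg_mono (b := fun _ => R) ?_ (reg_subset (Finset.subset_univ _) hR)
    intro i hi
    rw [Finset.mem_compl, Finset.mem_filter] at hi
    by_contra hno
    exact hi ⟨Finset.mem_univ i, by omega⟩

end Pool.Agent.H189.WS
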